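import Pool.Agent.N222.Dil.Main

/-!
# No dense `SL(2, ℝ)`-orbit on a component of triangulable dilation surfaces

The definitions are in `Pool/Agent/N222/Dil/Defs.lean`: `Tri` is the triangulable locus of the
stratum of dilation surfaces of genus two with one cone point (of angle `6π`).
-/

open scoped MatrixGroups

namespace Pool.Agent.Results.MP_55f3b9_an.NoDenseOrbit

open Pool.Agent.N222.Dil

/-- The triangulable locus `Tri` of the stratum of dilation surfaces of genus two with a single
cone point has a connected component in which no `SL(2, ℝ)`-orbit is dense. -/
theorem result : ∃ p : Tri, ∀ x ∈ connectedComponent p,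
    closure (MulAction.orbit SL(2, ℝ) x) ≠ connectedComponent p :=
  ⟨mk (ex one'), fun x _ h => no_dense_orbit x h.ge⟩

end Pool.Agent.Results.MP_55f3b9_an.NoDenseOrbit
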